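import Pool.Agent.H14.Mj1
set_option autoImplicit false

open Classical in
theorem Pool.Agent.Results.MP_e8eed4_co.ThreeColours.result {V : Type} [Countable V]
    (G : SimpleGraph V) (w : Sym2 V → ℕ) :
    ∃ φ : V → Fin 3, ∀ v,
      ∑' u, (if G.Adj v u ∧ φ u = φ v then (w s(v, u) : ENNReal) else 0) ≤
        ∑' u, (if G.Adj v u ∧ φ u ≠ φ v then (w s(v, u) : ENNReal) else 0) := by
  obtain ⟨φ, h⟩ := Pool.Agent.H14.Mj.main (fun v u => if G.Adj v u then w s(v, u) else 0)
    (fun u v => by simp only [G.adj_comm, Sym2.eq_swap]) (fun v => by simp)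
  refine ⟨φ, fun v => le_of_eq_of_le (tsum_congr fun u => ?_)
    ((h v).trans_eq (tsum_congr fun u => ?_))⟩ <;>
  by_cases a : G.Adj v u <;> by_cases b : φ u = φ v <;> simp [a, b]
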